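import Pool.Agent.P.MP_a8e993_al.Group

set_option autoImplicit false

namespace Pool.Agent.Results.MP_a8e993_al.ExponentThree

open Pool.Agent.P.MP_a8e993_al Multiplicative

theorem free_ab {P : Type*} [Group P] [IsFreeGroup P] {n : ℕ} (hn : n ≠ 0)
    (a : Abelianization P) (h : a ^ n = 1) : a = 1 := by
  let e := (IsFreeGroup.toFreeGroup P).abelianizationCongr
  let b : FreeAbelianGroup (IsFreeGroup.Generators P) := Additive.ofMul (e a)
  have h1 : (e a) ^ n = 1 := by rw [← map_pow, h, map_one]
  have h2 : (n : ℤ) • b = 0 := by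
    rw [natCast_zsmul]
    exact h1
  have h3 : b = 0 := (smul_eq_zero.1 h2).resolve_left (by exact_mod_cast hn)
  exact e.injective ((show e a = 1 from h3).trans (map_one e).symm)

theorem prod_ab {K F : Type*} [Group K] [Group F] [IsFreeGroup F] (p : K →* F)
    (ht : K →* Multiplicative ℤ) (inj : ∀ a b, p a = p b → ht a = ht b → a = b)
    {n : ℕ} (hn : n ≠ 0) (a : Abelianization K) (h : a ^ n = 1) : a = 1 := by
  obtain ⟨g, rfl⟩ : ∃ g, Abelianization.of g = a := QuotientGroup.mk_surjective a
  have h1 : Abelianization.of (p.rangeRestrict g) = 1 := free_ab hn _ (by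
    rw [← Abelianization.map_of, ← map_pow, h, map_one])
  have h2 : p.rangeRestrict g ∈ (commutator K).map p.rangeRestrict := by
    rw [← MonoidHom.mem_ker, Abelianization.ker_of] at h1
    refine Subgroup.commutator_le_map_commutator ?_ ?_ h1 <;>
      exact (Subgroup.map_top_of_surjective _ p.rangeRestrict_surjective).ge
  obtain ⟨c, hc, e⟩ := h2
  have h3 : ht g = 1 := by
    have := congrArg (Abelianization.lift ht) h
    rw [map_pow, map_one, Abelianization.lift_apply_of] at this
    have h4 := congrArg toAdd this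
    rw [toAdd_pow, toAdd_one, smul_eq_zero] at h4
    exact h4.resolve_left hn
  have h4 : ht c = 1 := Abelianization.commutator_subset_ker ht hc
  rw [← inj c g (congrArg Subtype.val e) (h4.trans h3.symm), ← MonoidHom.mem_ker,
    Abelianization.ker_of]
  exact hc

theorem ab_of_index {H : Type*} [Group H] (K : Subgroup H) (hK : K.index ∣ 3) {n : ℕ}
    (h0 : ∀ a : Abelianization K, a ^ n = 1 → a = 1) (a : Abelianization H) (h : a ^ n = 1) :
    a ^ 3 = 1 := by
  have : K.FiniteIndex := ⟨fun h => by simp [h] at hK⟩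
  obtain ⟨g, rfl⟩ : ∃ g, Abelianization.of g = a := QuotientGroup.mk_surjective a
  have := Fintype.ofFinite (Quotient (MulAction.orbitRel (Subgroup.zpowers g) (H ⧸ K)))
  have h1 : MonoidHom.transfer (Abelianization.of : K →* Abelianization K) g = 1 := h0 _ (by
    rw [← Abelianization.lift_apply_of (MonoidHom.transfer _), ← map_pow, h, map_one])
  have h2 := congrArg (Abelianization.map K.subtype) h1
  rw [MonoidHom.transfer_eq_prod_quotient_orbitRel_zpowers_quot, map_prod, map_one] at h2
  simp only [Abelianization.map_of, Subgroup.subtype_apply, map_mul, map_inv, map_pow,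
    inv_mul_cancel_comm] at h2
  rw [Finset.prod_pow_eq_pow_sum, ← Subgroup.index_eq_sum_minimalPeriod] at h2
  obtain ⟨k, hk⟩ := hK
  rw [hk, pow_mul, h2, one_pow]

theorem ab_cube (H : Subgroup Grp) (a : Abelianization H) (h : IsOfFinOrder a) : a ^ 3 = 1 := by
  obtain ⟨n, hn, h⟩ := isOfFinOrder_iff_pow_eq_one.1 h
  let ht : H →* Multiplicative ℤ := SemidirectProduct.rightHom.comp H.subtype
  let χ : H →* Multiplicative (ZMod 3) :=
    (AddMonoidHom.toMultiplicative (Int.castAddHom (ZMod 3))).comp ht
  have hk : ∀ g : χ.ker, mono g.1.1.right = 1 := fun g =>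
    mono_eq_one ((ZMod.intCast_zmod_eq_zero_iff_dvd _ 3).1 g.2)
  let p : χ.ker →* FreeGroup (Fin 4) := MonoidHom.mk' (fun g => g.1.1.left) fun g g' => by
    simp only [Subgroup.coe_mul, SemidirectProduct.mul_left, hk, MulAut.one_apply]
  refine ab_of_index χ.ker ?_ (prod_ab p (ht.comp χ.ker.subtype) (fun g g' e e' =>
    Subtype.ext (Subtype.ext (SemidirectProduct.ext e e'))) hn.ne') a h
  rw [Subgroup.index_ker]
  simpa using Subgroup.card_subgroup_dvd_card χ.range

universe u

/-- A free-by-cyclic group that is not the fundamental group of a compact 3-manifold and in which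
the torsion of the abelianisation of every subgroup is killed by three. -/
theorem result : ∃ ψ : Multiplicative ℤ →* MulAut (FreeGroup (Fin 4)),
    (¬ ∃ (M : Type u) (_ : TopologicalSpace M) (_ : T2Space M) (_ : CompactSpace M)
        (_ : ChartedSpace (EuclideanHalfSpace 3) M) (x : M),
        Nonempty (FundamentalGroup M x ≃* FreeGroup (Fin 4) ⋊[ψ] Multiplicative ℤ)) ∧
      ∀ (H : Subgroup (FreeGroup (Fin 4) ⋊[ψ] Multiplicative ℤ)) (a : Abelianization H),
        IsOfFinOrder a → a ^ 3 = 1 :=
  ⟨mono, fun ⟨_, _, _, _, _, x, ⟨φ⟩⟩ => grp_not_fundamentalGroup x φ, ab_cube⟩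

end Pool.Agent.Results.MP_a8e993_al.ExponentThree
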